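import Mathlib
import Pool.Agent.H24.Infinitary

set_option autoImplicit false

universe u

namespace Pool.Agent.Results.MP_f264ea_lc.Groups

open FirstOrder FirstOrder.Language Pool.Agent.H24.Infinitary

/-- The function symbols of the signature of groups: `1`, inverse, `·`. -/
inductive GroupFn : ℕ → Type
  | one : GroupFn 0
  | inv : GroupFn 1
  | mul : GroupFn 2

/-- The signature of groups; no relation symbols. -/
def groupSig : FirstOrder.Language.{0, 0} := ⟨GroupFn, fun _ => Empty⟩

/-- The structure `M` in the signature of groups is a residually finite group: its operations are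
the operations of a group and every element other than `1` lies outside some normal subgroup of
finite index. -/
def IsResiduallyFiniteGroup (M : Type u) [groupSig.Structure M] : Prop :=
  ∃ _G : Group M,
    (∀ v : Fin 0 → M, Structure.funMap (L := groupSig) GroupFn.one v = (1 : M)) ∧
    (∀ v : Fin 1 → M, Structure.funMap (L := groupSig) GroupFn.inv v = (v 0)⁻¹) ∧
    (∀ v : Fin 2 → M, Structure.funMap (L := groupSig) GroupFn.mul v = v 0 * v 1) ∧
    ∀ g : M, g ≠ 1 → ∃ N : Subgroup M, N.Normal ∧ N.FiniteIndex ∧ g ∉ N

/-- terms -/
abbrev T : Type := groupSig.Term (Fin 3)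

def X (i : Fin 3) : T := Term.var i
def oneT : T := Term.func (L := groupSig) GroupFn.one (fun i => i.elim0)
def invT (s : T) : T := Term.func (L := groupSig) GroupFn.inv (fun _ => s)
def mulT (s t : T) : T := Term.func (L := groupSig) GroupFn.mul ![s, t]

section

variable {M : Type u} [groupSig.Structure M] (v : Fin 3 → M)

def oM (M : Type u) [groupSig.Structure M] : M :=
  Structure.funMap (L := groupSig) GroupFn.one (fun i => i.elim0)
def iM (a : M) : M := Structure.funMap (L := groupSig) GroupFn.inv (fun _ => a)
def mM (a b : M) : M := Structure.funMap (L := groupSig) GroupFn.mul ![a, b]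

lemma realize_X (i : Fin 3) : (X i).realize v = v i := rfl

lemma realize_oneT : oneT.realize v = oM M := by
  unfold oneT oM
  rw [Term.realize_func]
  congr 1
  funext i
  exact i.elim0

lemma realize_invT (s : T) : (invT s).realize v = iM (s.realize v) := rfl

lemma realize_mulT (s t : T) : (mulT s t).realize v = mM (s.realize v) (t.realize v) := by
  unfold mulT mM
  rw [Term.realize_func]
  congr 1
  funext i
  fin_cases i <;> rfl

end

/-- the identities of groups -/
def ids : Fin 4 → T × T := ![
  (mulT (mulT (X 0) (X 1)) (X 2), mulT (X 0) (mulT (X 1) (X 2))),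
  (mulT oneT (X 0), X 0),
  (mulT (X 0) oneT, X 0),
  (mulT (invT (X 0)) (X 0), oneT)]

/-- The sentence axiomatizing residually finite groups. -/
def rfGroup : Fml groupSig Empty :=
  .conj (Option (Fin 4)) (fun o => match o with
    | none => rfF groupSig GroupFn.one
    | some i => idF (ids i).1 (ids i).2)

lemma realize_ids (M : Type u) [groupSig.Structure M] :
    (∀ i : Fin 4, Models M (idF (ids i).1 (ids i).2)) ↔
    (∀ a b c : M, mM (mM a b) c = mM a (mM b c)) ∧
    (∀ a : M, mM (oM M) a = a) ∧ (∀ a : M, mM a (oM M) = a) ∧
    (∀ a : M, mM (iM a) a = oM M) := by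
  simp only [realize_idF, Fin.forall_fin_succ, ids]
  simp only [Matrix.cons_val_zero, Matrix.cons_val_succ, realize_mulT, realize_invT,
    realize_oneT, realize_X]
  constructor
  · rintro ⟨h1, h2, h3, h4, -⟩
    exact ⟨fun a b c => h1 ![a, b, c], fun a => h2 ![a, a, a], fun a => h3 ![a, a, a],
      fun a => h4 ![a, a, a]⟩
  · rintro ⟨h1, h2, h3, h4⟩
    exact ⟨fun v => h1 _ _ _, fun v => h2 _, fun v => h3 _, fun v => h4 _, fun i => i.elim0⟩

lemma fm2 {M : Type u} [groupSig.Structure M] (f : GroupFn 2) (v : Fin 2 → M) :
    Structure.funMap (L := groupSig) f v = Structure.funMap (L := groupSig) f ![v 0, v 1] := by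
  congr 1
  funext i
  fin_cases i <;> rfl

lemma fm1 {M : Type u} [groupSig.Structure M] (f : GroupFn 1) (v : Fin 1 → M) :
    Structure.funMap (L := groupSig) f v = Structure.funMap (L := groupSig) f (fun _ => v 0) := by
  congr 1
  funext i
  fin_cases i ; rfl

lemma fm0 {M : Type u} [groupSig.Structure M] (f : GroupFn 0) (v w : Fin 0 → M) :
    Structure.funMap (L := groupSig) f v = Structure.funMap (L := groupSig) f w := by
  congr 1
  funext i
  exact i.elim0

/-- The group built from the identities. -/
@[reducible]
def mkGroup (M : Type u) [groupSig.Structure M]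
    (h1 : ∀ a b c : M, mM (mM a b) c = mM a (mM b c))
    (h2 : ∀ a : M, mM (oM M) a = a) (h3 : ∀ a : M, mM a (oM M) = a)
    (h4 : ∀ a : M, mM (iM a) a = oM M) : Group M where
  mul := mM
  mul_assoc := h1
  one := oM M
  one_mul := h2
  mul_one := h3
  inv := iM
  inv_mul_cancel := h4

theorem main (M : Type u) [groupSig.Structure M] :
    Models M rfGroup ↔ IsResiduallyFiniteGroup M := by
  have hsplit : Models M rfGroup ↔ Models M (rfF groupSig GroupFn.one) ∧
      ∀ i : Fin 4, Models M (idF (ids i).1 (ids i).2) := by
    unfold Models rfGroup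
    simp only [Fml.Realize]
    constructor
    · intro h
      exact ⟨h none, fun i => h (some i)⟩
    · rintro ⟨h1, h2⟩ (_ | i)
      · exact h1
      · exact h2 i
  rw [hsplit, realize_rfF, realize_ids]
  constructor
  · rintro ⟨hrf, h1, h2, h3, h4⟩
    letI G : Group M := mkGroup M h1 h2 h3 h4
    refine ⟨G, ?_, ?_, ?_, ?_⟩
    · intro v
      exact fm0 _ _ _
    · intro v
      exact fm1 _ _
    · intro v
      exact fm2 _ _
    · intro a ha
      have ha' : a ≠ Structure.funMap (L := groupSig) GroupFn.one ![] := by
        intro h
        apply ha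
        rw [h]
        exact fm0 _ _ _
      obtain ⟨n, S, h, hh, hne⟩ := hrf a ha'
      have hne1 : h a ≠ h 1 := by
        intro h0
        apply hne
        rw [h0]
        congr 1
      have hmul : ∀ x y : M, h (x * y) = S.funMap GroupFn.mul ![h x, h y] := by
        intro x y
        have := hh 2 GroupFn.mul ![x, y]
        rw [show x * y = Structure.funMap (L := groupSig) GroupFn.mul ![x, y] from rfl, this]
        congr 1
        funext i
        fin_cases i <;> rfl
      have hmulc : ∀ x x' y y' : M, h x = h x' → h y = h y' → h (x * y) = h (x' * y') := by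
        intro x x' y y' e1 e2
        rw [hmul, hmul, e1, e2]
      let N : Subgroup M :=
        { carrier := {g | h g = h 1}
          one_mem' := rfl
          mul_mem' := by
            intro x y hx hy
            change h (x * y) = h 1
            rw [hmulc x 1 y 1 hx hy, one_mul]
          inv_mem' := by
            intro x hx
            change h x⁻¹ = h 1
            have := hmulc x⁻¹ x⁻¹ 1 x rfl (Eq.symm hx)
            rw [mul_one, inv_mul_cancel] at this
            exact this }
      have hN : N.Normal := by
        constructor
        intro x hx g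
        change h (g * x * g⁻¹) = h 1
        rw [hmulc (g * x) (g * 1) g⁻¹ g⁻¹ (hmulc g g x 1 rfl hx) rfl, mul_one, mul_inv_cancel]
      refine ⟨N, hN, ?_, ?_⟩
      · have hfin : Finite (M ⧸ N) := by
          refine Finite.of_injective (β := Fin n) (Quotient.lift h ?_) ?_
          · intro x y hxy
            have hxy' : x⁻¹ * y ∈ N := QuotientGroup.leftRel_apply.mp hxy
            have := hmulc x x 1 (x⁻¹ * y) rfl (Eq.symm hxy')
            rw [mul_one, mul_inv_cancel_left] at this
            exact this
          · intro x y
            refine Quotient.inductionOn₂ x y ?_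
            intro x y hxy
            apply Quotient.sound
            apply QuotientGroup.leftRel_apply.mpr
            change h (x⁻¹ * y) = h 1
            rw [hmulc x⁻¹ x⁻¹ y x rfl (Eq.symm hxy), inv_mul_cancel]
        exact Subgroup.finiteIndex_of_finite_quotient
      · intro hmem
        exact hne1 hmem
  · rintro ⟨G, e1, ei, em, hrf⟩
    have o' : oM M = 1 := e1 _
    have i' : ∀ a : M, iM a = a⁻¹ := fun a => ei _
    have m' : ∀ a b : M, mM a b = a * b := fun a b => em _
    refine ⟨?_, ?_⟩
    · intro x hx
      rw [e1] at hx
      obtain ⟨N, hN, hfin, hx'⟩ := hrf x hx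
      letI : groupSig.Structure (M ⧸ N) :=
        ⟨fun {n} f => match n, f with
          | _, GroupFn.one => fun _ => (1 : M ⧸ N)
          | _, GroupFn.inv => fun v => ((v 0)⁻¹ : M ⧸ N)
          | _, GroupFn.mul => fun v => (v 0 * v 1 : M ⧸ N), fun {n} r => r.elim⟩
      haveI : Finite (M ⧸ N) := Subgroup.finite_quotient_of_finiteIndex
      refine exists_fin (L := groupSig) (M := M) (Q := M ⧸ N) (fun m => (m : M ⧸ N)) ?_ x
        (Structure.funMap (L := groupSig) GroupFn.one ![]) ?_
      · intro m f v
        cases f with
        | one =>
          rw [e1]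
          rfl
        | inv =>
          rw [ei]
          rfl
        | mul =>
          rw [em]
          rfl
      · intro h
        apply hx'
        rw [e1] at h
        simpa using h
    · simp only [o', i', m']
      exact ⟨mul_assoc, one_mul, mul_one, inv_mul_cancel⟩

/-- There is an `L_{∞,∞}`-sentence in the signature of groups whose models are exactly the
residually finite groups. -/
theorem result : ∃ φ : Fml groupSig Empty, ∀ (M : Type u) [groupSig.Structure M],
    Models M φ ↔ IsResiduallyFiniteGroup M :=
  ⟨rfGroup, fun M _ => main M⟩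

end Pool.Agent.Results.MP_f264ea_lc.Groups
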