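import Mathlib
import Pool.Agent.H24.Infinitary

set_option autoImplicit false

universe u

namespace Pool.Agent.Results.MP_f264ea_lc.Rings

open FirstOrder FirstOrder.Language Pool.Agent.H24.Infinitary

/-- The function symbols of the signature of rings: `0`, `-`, `+`, `·`. -/
inductive RingFn : ℕ → Type
  | zero : RingFn 0
  | neg : RingFn 1
  | add : RingFn 2
  | mul : RingFn 2

/-- The signature of (not necessarily unital) rings; no relation symbols. -/
def ringSig : FirstOrder.Language.{0, 0} := ⟨RingFn, fun _ => Empty⟩

/-- The structure `M` in the signature of rings is a residually finite (associative, not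
necessarily unital or commutative) ring: its operations are the operations of a ring and every
nonzero element lies outside some two-sided ideal `I` with `M / I` finite. -/
def IsResiduallyFiniteRing (M : Type u) [ringSig.Structure M] : Prop :=
  ∃ _R : NonUnitalRing M,
    (∀ v : Fin 0 → M, Structure.funMap (L := ringSig) RingFn.zero v = (0 : M)) ∧
    (∀ v : Fin 1 → M, Structure.funMap (L := ringSig) RingFn.neg v = - v 0) ∧
    (∀ v : Fin 2 → M, Structure.funMap (L := ringSig) RingFn.add v = v 0 + v 1) ∧
    (∀ v : Fin 2 → M, Structure.funMap (L := ringSig) RingFn.mul v = v 0 * v 1) ∧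
    ∀ a : M, a ≠ 0 → ∃ I : TwoSidedIdeal M, Finite I.ringCon.Quotient ∧ a ∉ I

/-- terms -/
abbrev T : Type := ringSig.Term (Fin 3)

def X (i : Fin 3) : T := Term.var i
def zeroT : T := Term.func (L := ringSig) RingFn.zero (fun i => i.elim0)
def negT (s : T) : T := Term.func (L := ringSig) RingFn.neg (fun _ => s)
def addT (s t : T) : T := Term.func (L := ringSig) RingFn.add ![s, t]
def mulT (s t : T) : T := Term.func (L := ringSig) RingFn.mul ![s, t]

section

variable {M : Type u} [ringSig.Structure M] (v : Fin 3 → M)

def zM (M : Type u) [ringSig.Structure M] : M :=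
  Structure.funMap (L := ringSig) RingFn.zero (fun i => i.elim0)
def nM (a : M) : M := Structure.funMap (L := ringSig) RingFn.neg (fun _ => a)
def aM (a b : M) : M := Structure.funMap (L := ringSig) RingFn.add ![a, b]
def mM (a b : M) : M := Structure.funMap (L := ringSig) RingFn.mul ![a, b]

lemma realize_X (i : Fin 3) : (X i).realize v = v i := rfl

lemma realize_zeroT : zeroT.realize v = zM M := by
  unfold zeroT zM
  rw [Term.realize_func]
  congr 1
  funext i
  exact i.elim0

lemma realize_negT (s : T) : (negT s).realize v = nM (s.realize v) := rfl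

lemma realize_addT (s t : T) : (addT s t).realize v = aM (s.realize v) (t.realize v) := by
  unfold addT aM
  rw [Term.realize_func]
  congr 1
  funext i
  fin_cases i <;> rfl

lemma realize_mulT (s t : T) : (mulT s t).realize v = mM (s.realize v) (t.realize v) := by
  unfold mulT mM
  rw [Term.realize_func]
  congr 1
  funext i
  fin_cases i <;> rfl

end

/-- the identities of rings -/
def ids : Fin 9 → T × T := ![
  (addT (addT (X 0) (X 1)) (X 2), addT (X 0) (addT (X 1) (X 2))),
  (addT zeroT (X 0), X 0),
  (addT (negT (X 0)) (X 0), zeroT),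
  (addT (X 0) (X 1), addT (X 1) (X 0)),
  (mulT (mulT (X 0) (X 1)) (X 2), mulT (X 0) (mulT (X 1) (X 2))),
  (mulT (X 0) (addT (X 1) (X 2)), addT (mulT (X 0) (X 1)) (mulT (X 0) (X 2))),
  (mulT (addT (X 0) (X 1)) (X 2), addT (mulT (X 0) (X 2)) (mulT (X 1) (X 2))),
  (mulT zeroT (X 0), zeroT),
  (mulT (X 0) zeroT, zeroT)]

/-- The sentence axiomatizing residually finite rings. -/
def rfRing : Fml ringSig Empty :=
  .conj (Option (Fin 9)) (fun o => match o with
    | none => rfF ringSig RingFn.zero
    | some i => idF (ids i).1 (ids i).2)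

lemma realize_ids (M : Type u) [ringSig.Structure M] :
    (∀ i : Fin 9, Models M (idF (ids i).1 (ids i).2)) ↔
    (∀ a b c : M, aM (aM a b) c = aM a (aM b c)) ∧ (∀ a : M, aM (zM M) a = a) ∧
    (∀ a : M, aM (nM a) a = zM M) ∧ (∀ a b : M, aM a b = aM b a) ∧
    (∀ a b c : M, mM (mM a b) c = mM a (mM b c)) ∧
    (∀ a b c : M, mM a (aM b c) = aM (mM a b) (mM a c)) ∧
    (∀ a b c : M, mM (aM a b) c = aM (mM a c) (mM b c)) ∧
    (∀ a : M, mM (zM M) a = zM M) ∧ (∀ a : M, mM a (zM M) = zM M) := by
  simp only [realize_idF, Fin.forall_fin_succ, ids]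
  simp only [Matrix.cons_val_zero, Matrix.cons_val_succ, realize_addT, realize_mulT, realize_negT,
    realize_zeroT, realize_X]
  constructor
  · rintro ⟨h1, h2, h3, h4, h5, h6, h7, h8, h9, -⟩
    refine ⟨fun a b c => h1 ![a, b, c], fun a => h2 ![a, a, a], fun a => h3 ![a, a, a],
      fun a b => h4 ![a, b, b], fun a b c => h5 ![a, b, c], fun a b c => h6 ![a, b, c],
      fun a b c => h7 ![a, b, c], fun a => h8 ![a, a, a], fun a => h9 ![a, a, a]⟩
  · rintro ⟨h1, h2, h3, h4, h5, h6, h7, h8, h9⟩
    refine ⟨fun v => h1 _ _ _, fun v => h2 _, fun v => h3 _, fun v => h4 _ _, fun v => h5 _ _ _,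
      fun v => h6 _ _ _, fun v => h7 _ _ _, fun v => h8 _, fun v => h9 _, fun i => i.elim0⟩

lemma fm2 {M : Type u} [ringSig.Structure M] (f : RingFn 2) (v : Fin 2 → M) :
    Structure.funMap (L := ringSig) f v = Structure.funMap (L := ringSig) f ![v 0, v 1] := by
  congr 1
  funext i
  fin_cases i <;> rfl

lemma fm1 {M : Type u} [ringSig.Structure M] (f : RingFn 1) (v : Fin 1 → M) :
    Structure.funMap (L := ringSig) f v = Structure.funMap (L := ringSig) f (fun _ => v 0) := by
  congr 1
  funext i
  fin_cases i ; rfl

lemma fm0 {M : Type u} [ringSig.Structure M] (f : RingFn 0) (v w : Fin 0 → M) :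
    Structure.funMap (L := ringSig) f v = Structure.funMap (L := ringSig) f w := by
  congr 1
  funext i
  exact i.elim0

/-- The ring built from the identities. -/
@[reducible]
def mkRing (M : Type u) [ringSig.Structure M]
    (h1 : ∀ a b c : M, aM (aM a b) c = aM a (aM b c)) (h2 : ∀ a : M, aM (zM M) a = a)
    (h3 : ∀ a : M, aM (nM a) a = zM M) (h4 : ∀ a b : M, aM a b = aM b a)
    (h5 : ∀ a b c : M, mM (mM a b) c = mM a (mM b c))
    (h6 : ∀ a b c : M, mM a (aM b c) = aM (mM a b) (mM a c))
    (h7 : ∀ a b c : M, mM (aM a b) c = aM (mM a c) (mM b c))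
    (h8 : ∀ a : M, mM (zM M) a = zM M) (h9 : ∀ a : M, mM a (zM M) = zM M) :
    NonUnitalRing M where
  add := aM
  add_assoc := h1
  zero := zM M
  zero_add := h2
  add_zero := fun a => (h4 a (zM M)).trans (h2 a)
  nsmul := @nsmulRec M ⟨zM M⟩ ⟨aM⟩
  neg := nM
  zsmul := @zsmulRec M ⟨zM M⟩ ⟨aM⟩ ⟨nM⟩ (@nsmulRec M ⟨zM M⟩ ⟨aM⟩)
  neg_add_cancel := h3
  add_comm := h4
  mul := mM
  left_distrib := h6
  right_distrib := h7
  zero_mul := h8
  mul_zero := h9
  mul_assoc := h5

theorem main (M : Type u) [ringSig.Structure M] : Models M rfRing ↔ IsResiduallyFiniteRing M := by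
  have hsplit : Models M rfRing ↔ Models M (rfF ringSig RingFn.zero) ∧
      ∀ i : Fin 9, Models M (idF (ids i).1 (ids i).2) := by
    unfold Models rfRing
    simp only [Fml.Realize]
    constructor
    · intro h
      exact ⟨h none, fun i => h (some i)⟩
    · rintro ⟨h1, h2⟩ (_ | i)
      · exact h1
      · exact h2 i
  rw [hsplit, realize_rfF, realize_ids]
  constructor
  · rintro ⟨hrf, h1, h2, h3, h4, h5, h6, h7, h8, h9⟩
    letI R : NonUnitalRing M := mkRing M h1 h2 h3 h4 h5 h6 h7 h8 h9
    refine ⟨R, ?_, ?_, ?_, ?_, ?_⟩
    · intro v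
      exact fm0 _ _ _
    · intro v
      exact fm1 _ _
    · intro v
      exact fm2 _ _
    · intro v
      exact fm2 _ _
    · intro a ha
      have ha' : a ≠ Structure.funMap (L := ringSig) RingFn.zero ![] := by
        intro h
        apply ha
        rw [h]
        exact fm0 _ _ _
      obtain ⟨n, S, h, hh, hne⟩ := hrf a ha'
      have hadd : ∀ x y : M, h (x + y) = S.funMap RingFn.add ![h x, h y] := by
        intro x y
        have := hh 2 RingFn.add ![x, y]
        rw [show x + y = Structure.funMap (L := ringSig) RingFn.add ![x, y] from rfl, this]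
        congr 1
        funext i
        fin_cases i <;> rfl
      have hmul : ∀ x y : M, h (x * y) = S.funMap RingFn.mul ![h x, h y] := by
        intro x y
        have := hh 2 RingFn.mul ![x, y]
        rw [show x * y = Structure.funMap (L := ringSig) RingFn.mul ![x, y] from rfl, this]
        congr 1
        funext i
        fin_cases i <;> rfl
      let C : RingCon M :=
        { r := fun x y => h x = h y
          iseqv := ⟨fun _ => rfl, fun h => h.symm, fun h1 h2 => h1.trans h2⟩
          add' := by
            intro w x y z h1 h2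
            change h (w + y) = h (x + z)
            rw [hadd, hadd]
            change h w = h x at h1
            change h y = h z at h2
            rw [h1, h2]
          mul' := by
            intro w x y z h1 h2
            change h (w * y) = h (x * z)
            rw [hmul, hmul]
            change h w = h x at h1
            change h y = h z at h2
            rw [h1, h2] }
      refine ⟨TwoSidedIdeal.ofRingCon C, ?_, ?_⟩
      · change Finite C.Quotient
        refine Finite.of_injective (β := Fin n) (Quotient.lift h (fun x y hxy => hxy)) ?_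
        intro x y
        refine Quotient.inductionOn₂ x y ?_
        intro x y hxy
        exact Quotient.sound hxy
      · intro hmem
        rw [TwoSidedIdeal.mem_iff] at hmem
        apply hne
        change h a = h 0 at hmem
        rw [hmem]
        congr 1
  · rintro ⟨R, e0, en, ea, em, hrf⟩
    have z' : zM M = 0 := e0 _
    have n' : ∀ a : M, nM a = -a := fun a => en _
    have a' : ∀ a b : M, aM a b = a + b := fun a b => ea _
    have m' : ∀ a b : M, mM a b = a * b := fun a b => em _
    refine ⟨?_, ?_⟩
    · intro x hx
      rw [e0] at hx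
      obtain ⟨I, hfin, hI⟩ := hrf x hx
      let Q := I.ringCon.Quotient
      letI : ringSig.Structure Q :=
        ⟨fun {n} f => match n, f with
          | _, RingFn.zero => fun _ => (0 : I.ringCon.Quotient)
          | _, RingFn.neg => fun v => (- (v 0) : I.ringCon.Quotient)
          | _, RingFn.add => fun v => (v 0 + v 1 : I.ringCon.Quotient)
          | _, RingFn.mul => fun v => (v 0 * v 1 : I.ringCon.Quotient), fun {n} r => r.elim⟩
      haveI : Finite Q := hfin
      refine exists_fin (L := ringSig) (M := M) (Q := Q) (fun m => (m : I.ringCon.Quotient)) ?_ x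
        (Structure.funMap (L := ringSig) RingFn.zero ![]) ?_
      · intro m f v
        cases f with
        | zero =>
          rw [e0]
          rfl
        | neg =>
          rw [en]
          rfl
        | add =>
          rw [ea]
          rfl
        | mul =>
          rw [em]
          rfl
      · intro h
        apply hI
        rw [TwoSidedIdeal.mem_iff]
        rw [e0] at h
        exact Quotient.exact h
    · simp only [z', n', a', m']
      exact ⟨add_assoc, zero_add, neg_add_cancel, add_comm, mul_assoc, mul_add, add_mul, zero_mul,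
        mul_zero⟩

/-- There is an `L_{∞,∞}`-sentence in the signature of rings whose models are exactly the
residually finite rings. -/
theorem result : ∃ φ : Fml ringSig Empty, ∀ (M : Type u) [ringSig.Structure M],
    Models M φ ↔ IsResiduallyFiniteRing M :=
  ⟨rfRing, fun M _ => main M⟩

end Pool.Agent.Results.MP_f264ea_lc.Rings
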